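import Mathlib.Analysis.Calculus.ContDiff.Basic
import Mathlib.Analysis.InnerProductSpace.PiL2
import Mathlib.Analysis.InnerProductSpace.Calculus
import Mathlib.Analysis.SpecialFunctions.PolarCoord
import Mathlib.MeasureTheory.Constructions.HaarToSphere
import Mathlib.MeasureTheory.Integral.IntegralEqImproper
import Mathlib.MeasureTheory.Integral.Average
import Mathlib.MeasureTheory.Measure.Haar.InnerProductSpace
import Mathlib.Tactic

/-!
# Approximate continuity off the jump set fails in `BD_dev` of the plane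

In the plane the deviatoric symmetric gradient is the Cauchy-Riemann operator: for
`u = (x, -y) / |z|²`, i.e. `u = 1 / z`, one has `E_d u = π diag(1, -1) δ₀`, while the averages of
`|u - z|` over balls and over half balls centred at `0` tend to infinity for every `z`.
-/

set_option autoImplicit false

open MeasureTheory Measure Set Filter Topology Metric
open scoped ENNReal ContDiff

namespace Pool.Agent.Results.MP_d02974_an.PlanarCase

/-- Euclidean space `ℝ^n`. -/
abbrev R (n : ℕ) : Type := EuclideanSpace ℝ (Fin n)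

/-- `E_d u = G μ` in the sense of distributions on `Ω`, where
`E_d u = (Du + Du^t) / 2 - (div u / n) Id`. -/
def IsDeviatoric {n : ℕ} (Ω : Set (R n)) (u : R n → R n) (μ : Measure (R n))
    (G : R n → Matrix (Fin n) (Fin n) ℝ) : Prop :=
  ∀ φ : R n → ℝ, ContDiff ℝ ∞ φ → HasCompactSupport φ → tsupport φ ⊆ Ω → ∀ i j : Fin n,
    ∫ x in Ω, ((u x i * fderiv ℝ φ x (EuclideanSpace.single j 1) +
        u x j * fderiv ℝ φ x (EuclideanSpace.single i 1)) / 2 -
        if i = j then (∑ k, u x k * fderiv ℝ φ x (EuclideanSpace.single k 1)) / n else 0) =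
      - ∫ x, G x i j * φ x ∂μ

/-- `u ∈ BD_dev(Ω)` with `E_d u = G μ` and `|E_d u| = μ`: `u` is integrable on `Ω`, `μ` is a
finite measure carried by `Ω`, and `G` is a trace-free symmetric matrix field of Euclidean
(Frobenius) norm one `μ`-almost everywhere. -/
structure IsBDdev {n : ℕ} (Ω : Set (R n)) (u : R n → R n) (μ : Measure (R n))
    (G : R n → Matrix (Fin n) (Fin n) ℝ) : Prop where
  integrable : IntegrableOn u Ω
  finite : IsFiniteMeasure μ
  carried : μ Ωᶜ = 0
  measurable : ∀ i j, Measurable fun x => G x i j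
  symm : ∀ᵐ x ∂μ, (G x).IsSymm
  trace : ∀ᵐ x ∂μ, (G x).trace = 0
  norm : ∀ᵐ x ∂μ, ∑ i, ∑ j, G x i j ^ 2 = 1
  deviatoric : IsDeviatoric Ω u μ G

/-- The approximate discontinuity set `S_u`. -/
def discSet {n : ℕ} (Ω : Set (R n)) (u : R n → R n) : Set (R n) :=
  {x | x ∈ Ω ∧ ¬ ∃ z : R n, Tendsto (fun r : ℝ => ⨍ y in ball x r, ‖u y - z‖) (𝓝[>] 0) (𝓝 0)}

/-- The jump set `J_u`. -/
def jumpSet {n : ℕ} (Ω : Set (R n)) (u : R n → R n) : Set (R n) :=
  {x | x ∈ Ω ∧ ∃ (a b : R n) (ν : R n), a ≠ b ∧ ‖ν‖ = 1 ∧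
    Tendsto (fun r : ℝ => ⨍ y in ball x r ∩ {y | 0 < inner ℝ (y - x) ν}, ‖u y - a‖)
      (𝓝[>] 0) (𝓝 0) ∧
    Tendsto (fun r : ℝ => ⨍ y in ball x r ∩ {y | inner ℝ (y - x) ν < 0}, ‖u y - b‖)
      (𝓝[>] 0) (𝓝 0)}

/-- The vector field `1 / z`, i.e. `(x, -y) / (x² + y²)`. -/
noncomputable def cauchy (x : R 2) : R 2 := (‖x‖ ^ 2)⁻¹ • !₂[x 0, - x 1]

theorem norm_cauchy (x : R 2) : ‖cauchy x‖ = ‖x‖⁻¹ := by
  have h : ‖(!₂[x 0, - x 1] : R 2)‖ = ‖x‖ := by
    rw [EuclideanSpace.norm_eq, EuclideanSpace.norm_eq]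
    simp [Fin.sum_univ_two]
  rw [cauchy, norm_smul, h, norm_inv, norm_pow, norm_norm]
  by_cases hx : ‖x‖ = 0
  · rw [hx]; simp
  · field_simp

theorem measurable_cauchy : Measurable cauchy := by
  unfold cauchy
  have h0 : Measurable fun x : R 2 => (‖x‖ ^ 2)⁻¹ := by fun_prop
  refine h0.smul ?_
  have h : Continuous fun x : R 2 => (!₂[x 0, - x 1] : R 2) := by fun_prop
  exact h.measurable

theorem integrable_cauchy (ρ : ℝ) : IntegrableOn cauchy (ball (0 : R 2) ρ) := by
  have h1 : Integrable (fun x : R 2 => (Iio ρ).indicator (fun y : ℝ => y⁻¹) ‖x‖) := by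
    rw [integrable_fun_norm_addHaar (volume : Measure (R 2))
      (f := (Iio ρ).indicator (fun y : ℝ => y⁻¹))]
    have hfin : Module.finrank ℝ (R 2) = 2 := by simp
    rw [hfin]
    have h2 : IntegrableOn (fun _ : ℝ => (1 : ℝ)) (Ioo 0 ρ) := by
      have hv : volume (Ioo 0 ρ) ≠ ⊤ := measure_Ioo_lt_top.ne
      exact integrableOn_const hv enorm_ne_top
    have h3 : IntegrableOn ((Iio ρ).indicator fun _ : ℝ => (1 : ℝ)) (Ioi 0) := by
      rw [IntegrableOn, integrable_indicator_iff measurableSet_Iio, IntegrableOn,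
        Measure.restrict_restrict measurableSet_Iio]
      have : Iio ρ ∩ Ioi 0 = Ioo 0 ρ := by
        ext y; simp [and_comm]
      rw [this]
      exact h2
    refine h3.congr_fun ?_ measurableSet_Ioi
    intro y hy
    have hy0 : (0 : ℝ) < y := hy
    by_cases hyρ : y ∈ Iio ρ
    · simp only [indicator_of_mem hyρ]
      simp [hy0.ne']
    · simp only [indicator_of_notMem hyρ]
      simp
  have h4 : IntegrableOn (fun x : R 2 => ‖x‖⁻¹) (ball (0 : R 2) ρ) := by
    rw [← integrable_indicator_iff measurableSet_ball]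
    refine h1.congr (Eventually.of_forall fun x => ?_)
    by_cases hx : x ∈ ball (0 : R 2) ρ
    · rw [indicator_of_mem hx]
      exact indicator_of_mem (by simpa using hx) _
    · rw [indicator_of_notMem hx]
      exact indicator_of_notMem (by simpa using hx) _
  refine Integrable.mono' h4 measurable_cauchy.aestronglyMeasurable ?_
  exact Eventually.of_forall fun x => (norm_cauchy x).le

/-- On every piece of positive measure of the ball of radius `r`, the average of `|1/z - c|` is at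
least `1 / r - |c|`. -/
theorem average_ge {r : ℝ} {E : Set (R 2)} (hE : MeasurableSet E)
    (hEr : E ⊆ ball 0 r) (h0 : volume E ≠ 0) (c : R 2) :
    r⁻¹ - ‖c‖ ≤ ⨍ y in E, ‖cauchy y - c‖ := by
  have hfin : volume E ≠ ⊤ := ne_top_of_le_ne_top (measure_ball_lt_top (x := (0 : R 2))
    (r := r)).ne (measure_mono hEr)
  have hi : IntegrableOn (fun y => ‖cauchy y - c‖) E := by
    have h1 : IntegrableOn cauchy E := (integrable_cauchy r).mono_set hEr
    have h2 : IntegrableOn (fun _ : R 2 => c) E := integrableOn_const hfin enorm_ne_top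
    exact (h1.sub h2).norm
  have hle : ∀ᵐ y ∂(volume.restrict E), r⁻¹ - ‖c‖ ≤ ‖cauchy y - c‖ := by
    have hne : ∀ᵐ y ∂(volume.restrict E), y ≠ (0 : R 2) := by
      apply ae_restrict_of_ae
      exact Measure.ae_ne volume 0
    filter_upwards [ae_restrict_mem hE, hne] with y hy hy0
    have h1 : ‖y‖ < r := by simpa using hEr hy
    have h2 : 0 < ‖y‖ := norm_pos_iff.2 hy0
    have h3 : r⁻¹ ≤ ‖y‖⁻¹ := by
      apply inv_anti₀ h2 h1.le
    have h4 := norm_sub_norm_le (cauchy y) c
    rw [norm_cauchy] at h4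
    linarith
  have hc : ⨍ _ in E, (r⁻¹ - ‖c‖) = r⁻¹ - ‖c‖ := setAverage_const h0 hfin _
  rw [← hc]
  rw [setAverage_eq, setAverage_eq]
  apply smul_le_smul_of_nonneg_left _ (by positivity)
  exact integral_mono_ae (integrableOn_const hfin enorm_ne_top) hi hle

theorem not_tendsto (E : ℝ → Set (R 2)) (hE : ∀ r, 0 < r → MeasurableSet (E r))
    (hEr : ∀ r, 0 < r → E r ⊆ ball 0 r) (h0 : ∀ r, 0 < r → volume (E r) ≠ 0) (c : R 2) :
    ¬ Tendsto (fun r : ℝ => ⨍ y in E r, ‖cauchy y - c‖) (𝓝[>] 0) (𝓝 0) := by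
  intro h
  have h1 : Tendsto (fun r : ℝ => r⁻¹ - ‖c‖) (𝓝[>] 0) atTop :=
    tendsto_atTop_add_const_right _ _ tendsto_inv_nhdsGT_zero
  have h2 : Tendsto (fun r : ℝ => ⨍ y in E r, ‖cauchy y - c‖) (𝓝[>] 0) atTop := by
    refine tendsto_atTop_mono' _ ?_ h1
    filter_upwards [self_mem_nhdsWithin] with r hr
    exact average_ge (hE r hr) (hEr r hr) (h0 r hr) c
  exact not_tendsto_nhds_of_tendsto_atTop h2 0 h

theorem zero_mem_disc : (0 : R 2) ∈ discSet (ball 0 1) cauchy := by
  refine ⟨by simp, ?_⟩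
  rintro ⟨z, hz⟩
  refine not_tendsto (fun r => ball 0 r) (fun r _ => measurableSet_ball) (fun r _ => subset_rfl)
    (fun r hr => (measure_ball_pos volume 0 hr).ne') z hz

theorem zero_notMem_jump : (0 : R 2) ∉ jumpSet (ball 0 1) cauchy := by
  rintro ⟨-, a, b, ν, -, hν, h1, -⟩
  have ho : IsOpen {y : R 2 | 0 < inner ℝ (y - 0) ν} := by
    apply isOpen_lt continuous_const
    fun_prop
  refine not_tendsto (fun r => ball 0 r ∩ {y | 0 < inner ℝ (y - 0) ν})
    (fun r _ => measurableSet_ball.inter ho.measurableSet) (fun r _ => inter_subset_left)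
    (fun r hr => ?_) a h1
  have hne : (ball (0 : R 2) r ∩ {y | 0 < inner ℝ (y - 0) ν}).Nonempty := by
    refine ⟨(r / 2) • ν, ?_, ?_⟩
    · rw [mem_ball_zero_iff, norm_smul, hν, Real.norm_of_nonneg (by positivity)]
      linarith
    · change 0 < inner ℝ ((r / 2) • ν - 0) ν
      rw [sub_zero, real_inner_smul_left, real_inner_self_eq_norm_sq, hν]
      positivity
  exact ((isOpen_ball.inter ho).measure_pos volume hne).ne'

/-! ### Polar coordinates -/

/-- The point of the plane with the given Cartesian coordinates. -/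
noncomputable def pt (p : ℝ × ℝ) : R 2 := !₂[p.1, p.2]

theorem integral_plane (F : R 2 → ℝ) : ∫ x, F x = ∫ p : ℝ × ℝ, F (pt p) := by
  have h1 := (PiLp.volume_preserving_toLp (Fin 2)).integral_comp
    (MeasurableEquiv.toLp 2 (Fin 2 → ℝ)).measurableEmbedding F
  have h2 := (volume_preserving_finTwoArrow ℝ).symm.integral_comp
    (MeasurableEquiv.finTwoArrow (α := ℝ)).symm.measurableEmbedding
    (fun x : Fin 2 → ℝ => F (WithLp.toLp 2 x))
  rw [← h1, ← h2]
  rfl

/-- The point with polar coordinates `(r, θ)`. -/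
noncomputable def pol (r θ : ℝ) : R 2 := !₂[r * Real.cos θ, r * Real.sin θ]

/-- The radial unit vector. -/
noncomputable def er (θ : ℝ) : R 2 := !₂[Real.cos θ, Real.sin θ]

/-- The angular unit vector. -/
noncomputable def et (θ : ℝ) : R 2 := !₂[- Real.sin θ, Real.cos θ]

theorem norm_pol (r θ : ℝ) : ‖pol r θ‖ ^ 2 = r ^ 2 := by
  rw [EuclideanSpace.norm_sq_eq]
  simp only [pol, Fin.sum_univ_two, Real.norm_eq_abs, sq_abs]
  simp
  nlinarith [Real.sin_sq_add_cos_sq θ]

theorem norm_er (θ : ℝ) : ‖er θ‖ = 1 := by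
  have h : ‖er θ‖ ^ 2 = 1 := by
    rw [EuclideanSpace.norm_sq_eq]
    simp [er, Fin.sum_univ_two]
  nlinarith [norm_nonneg (er θ)]

theorem pol_eq (r θ : ℝ) : pol r θ = r • er θ := by
  ext i
  fin_cases i <;> simp [pol, er]

theorem integral_polar (F : R 2 → ℝ) :
    ∫ x, F x = ∫ p in Ioi (0 : ℝ) ×ˢ Ioo (-Real.pi) Real.pi, p.1 * F (pol p.1 p.2) := by
  rw [integral_plane, ← integral_comp_polarCoord_symm]
  rfl

theorem et_eq (x : ℝ) : et x = Real.cos x • EuclideanSpace.single 1 1 -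
    Real.sin x • EuclideanSpace.single 0 1 := by
  ext i
  fin_cases i <;> simp [et]

theorem er_eq (x : ℝ) : er x = Real.cos x • EuclideanSpace.single 0 1 +
    Real.sin x • EuclideanSpace.single 1 1 := by
  ext i
  fin_cases i <;> simp [er]

theorem continuous_er : Continuous er := by
  unfold er
  fun_prop

theorem continuous_et : Continuous et := by
  unfold et
  fun_prop

/-- Integration in polar coordinates of a continuous function with bounded radial support. -/
theorem integrableOn_polar {h : ℝ × ℝ → ℝ} (hc : Continuous h) {ρ : ℝ}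
    (hρ : ∀ p : ℝ × ℝ, ρ < p.1 → h p = 0) :
    IntegrableOn h (Ioi (0 : ℝ) ×ˢ Ioo (-Real.pi) Real.pi) := by
  have h1 : IntegrableOn h (Icc (0 : ℝ) ρ ×ˢ Icc (-Real.pi) Real.pi) :=
    hc.continuousOn.integrableOn_compact (isCompact_Icc.prod isCompact_Icc)
  have hm : MeasurableSet (Ioi (0 : ℝ) ×ˢ Ioo (-Real.pi) Real.pi) :=
    measurableSet_Ioi.prod measurableSet_Ioo
  have h2 : IntegrableOn h ((Ioi (0 : ℝ) ×ˢ Ioo (-Real.pi) Real.pi) ∩
      (Icc (0 : ℝ) ρ ×ˢ Icc (-Real.pi) Real.pi)) := h1.mono_set inter_subset_right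
  refine IntegrableOn.of_forall_sdiff_eq_zero h2 hm ?_
  rintro ⟨r, θ⟩ ⟨⟨hr, hθ⟩, hn⟩
  apply hρ
  by_contra hle
  push Not at hle
  exact hn ⟨⟨hr, hθ⟩, ⟨(le_of_lt hr : (0 : ℝ) ≤ r), hle⟩, ⟨hθ.1.le, hθ.2.le⟩⟩

section

variable {φ : R 2 → ℝ} (hφ : ContDiff ℝ ∞ φ) (hφc : HasCompactSupport φ)

include hφ hφc

theorem radial : ∫ x, (‖x‖ ^ 2)⁻¹ * fderiv ℝ φ x x = -(2 * Real.pi * φ 0) := by
  have hd : Differentiable ℝ φ := hφ.differentiable (by simp)
  have hcd : Continuous (fderiv ℝ φ) := hφ.continuous_fderiv (by simp)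
  obtain ⟨ρ, hρ⟩ := hφc.isCompact.isBounded.subset_closedBall (0 : R 2)
  rw [integral_polar]
  have hm : MeasurableSet (Ioi (0 : ℝ) ×ˢ Ioo (-Real.pi) Real.pi) :=
    measurableSet_Ioi.prod measurableSet_Ioo
  have h1 : ∫ p in Ioi (0 : ℝ) ×ˢ Ioo (-Real.pi) Real.pi,
      p.1 * ((‖pol p.1 p.2‖ ^ 2)⁻¹ * fderiv ℝ φ (pol p.1 p.2) (pol p.1 p.2)) =
      ∫ p in Ioi (0 : ℝ) ×ˢ Ioo (-Real.pi) Real.pi, fderiv ℝ φ (p.1 • er p.2) (er p.2) := by
    refine setIntegral_congr_fun hm ?_
    rintro ⟨r, θ⟩ ⟨hr, -⟩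
    have hr0 : (0 : ℝ) < r := hr
    change r * ((‖pol r θ‖ ^ 2)⁻¹ * fderiv ℝ φ (pol r θ) (pol r θ)) = fderiv ℝ φ (r • er θ) (er θ)
    rw [norm_pol, pol_eq, map_smul, smul_eq_mul]
    field_simp
  have hc : Continuous fun p : ℝ × ℝ => fderiv ℝ φ (p.1 • er p.2) (er p.2) := by
    have h2 : Continuous fun p : ℝ × ℝ => er p.2 := continuous_er.comp continuous_snd
    exact (hcd.comp (continuous_fst.smul h2)).clm_apply h2
  have hz : ∀ (r θ : ℝ), ρ < r → fderiv ℝ φ (r • er θ) = 0 := by
    intro r θ hr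
    have hns : r • er θ ∉ tsupport φ := by
      intro hmem
      have := hρ hmem
      rw [mem_closedBall_zero_iff, norm_smul, norm_er, mul_one] at this
      have := le_abs_self r
      rw [← Real.norm_eq_abs] at this
      linarith
    by_contra hne
    exact hns (tsupport_fderiv_subset ℝ (subset_tsupport _ hne))
  have hi := integrableOn_polar (ρ := ρ) hc (fun p hp => by rw [hz _ _ hp]; rfl)
  rw [h1]
  have hprod : (volume : Measure (ℝ × ℝ)) = (volume : Measure ℝ).prod volume := rfl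
  rw [hprod, ← Measure.prod_restrict, integral_prod_symm]
  · have h3 : ∀ θ : ℝ, ∫ r in Ioi (0 : ℝ), fderiv ℝ φ (r • er θ) (er θ) = - φ 0 := by
      intro θ
      have hder : ∀ r ∈ Ici (0 : ℝ), HasDerivAt (fun r : ℝ => φ (r • er θ))
          (fderiv ℝ φ (r • er θ) (er θ)) r := by
        intro r _
        have ha : HasDerivAt (fun r : ℝ => r • er θ) ((1 : ℝ) • er θ) r :=
          (hasDerivAt_id r).smul_const (er θ)
        rw [one_smul] at ha
        exact ((hd _).hasFDerivAt).comp_hasDerivAt r ha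
      have hlim : Tendsto (fun r : ℝ => φ (r • er θ)) atTop (𝓝 0) := by
        apply tendsto_const_nhds.congr'
        filter_upwards [eventually_gt_atTop ρ, eventually_gt_atTop 0] with r hr hr0
        symm
        apply image_eq_zero_of_notMem_tsupport
        intro hmem
        have := hρ hmem
        rw [mem_closedBall_zero_iff, norm_smul, norm_er, mul_one,
          Real.norm_of_nonneg hr0.le] at this
        linarith
      have hint : IntegrableOn (fun r : ℝ => fderiv ℝ φ (r • er θ) (er θ)) (Ioi 0) := by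
        have hc2 : Continuous fun r : ℝ => fderiv ℝ φ (r • er θ) (er θ) :=
          hc.comp (continuous_id.prodMk continuous_const)
        have h5 : IntegrableOn (fun r : ℝ => fderiv ℝ φ (r • er θ) (er θ)) (Ioi 0 ∩ Icc 0 ρ) :=
          (hc2.continuousOn.integrableOn_compact isCompact_Icc).mono_set inter_subset_right
        refine IntegrableOn.of_forall_sdiff_eq_zero h5 measurableSet_Ioi ?_
        rintro r ⟨hr, hn⟩
        rw [hz r θ, zero_apply]
        by_contra hle
        push Not at hle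
        exact hn ⟨hr, (le_of_lt hr : (0 : ℝ) ≤ r), hle⟩
      rw [integral_Ioi_of_hasDerivAt_of_tendsto' hder hint hlim]
      simp
    change ∫ θ in Ioo (-Real.pi) Real.pi, ∫ r in Ioi (0 : ℝ), fderiv ℝ φ (r • er θ) (er θ) = _
    simp only [h3]
    rw [setIntegral_const, Measure.real, Real.volume_Ioo, ENNReal.toReal_ofReal (by
      linarith [Real.pi_pos]), smul_eq_mul]
    ring
  · rw [Measure.prod_restrict]
    exact hi

theorem angular : ∫ x, (‖x‖ ^ 2)⁻¹ * fderiv ℝ φ x (!₂[- x 1, x 0]) = 0 := by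
  have hd : Differentiable ℝ φ := hφ.differentiable (by simp)
  have hcd : Continuous (fderiv ℝ φ) := hφ.continuous_fderiv (by simp)
  obtain ⟨ρ, hρ⟩ := hφc.isCompact.isBounded.subset_closedBall (0 : R 2)
  rw [integral_polar]
  have hm : MeasurableSet (Ioi (0 : ℝ) ×ˢ Ioo (-Real.pi) Real.pi) :=
    measurableSet_Ioi.prod measurableSet_Ioo
  have h1 : ∫ p in Ioi (0 : ℝ) ×ˢ Ioo (-Real.pi) Real.pi,
      p.1 * ((‖pol p.1 p.2‖ ^ 2)⁻¹ *
        fderiv ℝ φ (pol p.1 p.2) (!₂[- (pol p.1 p.2) 1, (pol p.1 p.2) 0])) =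
      ∫ p in Ioi (0 : ℝ) ×ˢ Ioo (-Real.pi) Real.pi, fderiv ℝ φ (p.1 • er p.2) (et p.2) := by
    refine setIntegral_congr_fun hm ?_
    rintro ⟨r, θ⟩ ⟨hr, -⟩
    have hr0 : (0 : ℝ) < r := hr
    have he : (!₂[- (pol r θ) 1, (pol r θ) 0] : R 2) = r • et θ := by
      ext i
      fin_cases i <;> simp [pol, et]
    change r * ((‖pol r θ‖ ^ 2)⁻¹ * fderiv ℝ φ (pol r θ) (!₂[- (pol r θ) 1, (pol r θ) 0])) =
      fderiv ℝ φ (r • er θ) (et θ)
    rw [norm_pol, he, pol_eq, map_smul, smul_eq_mul]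
    field_simp
  have hc : Continuous fun p : ℝ × ℝ => fderiv ℝ φ (p.1 • er p.2) (et p.2) := by
    have h2 : Continuous fun p : ℝ × ℝ => er p.2 := continuous_er.comp continuous_snd
    have h3 : Continuous fun p : ℝ × ℝ => et p.2 := continuous_et.comp continuous_snd
    exact (hcd.comp (continuous_fst.smul h2)).clm_apply h3
  have hz : ∀ (r θ : ℝ), ρ < r → fderiv ℝ φ (r • er θ) = 0 := by
    intro r θ hr
    have hns : r • er θ ∉ tsupport φ := by
      intro hmem
      have := hρ hmem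
      rw [mem_closedBall_zero_iff, norm_smul, norm_er, mul_one] at this
      have := le_abs_self r
      rw [← Real.norm_eq_abs] at this
      linarith
    by_contra hne
    exact hns (tsupport_fderiv_subset ℝ (subset_tsupport _ hne))
  have hi := integrableOn_polar (ρ := ρ) hc (fun p hp => by rw [hz _ _ hp]; rfl)
  rw [h1]
  have hprod : (volume : Measure (ℝ × ℝ)) = (volume : Measure ℝ).prod volume := rfl
  rw [hprod, ← Measure.prod_restrict, integral_prod]
  · have h3 : ∀ r : ℝ, r ∈ Ioi (0 : ℝ) →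
        ∫ θ in Ioo (-Real.pi) Real.pi, fderiv ℝ φ (r • er θ) (et θ) = 0 := by
      intro r hr
      have hr0 : (0 : ℝ) < r := hr
      have hder : ∀ θ : ℝ, HasDerivAt (fun θ : ℝ => φ (r • er θ))
          (fderiv ℝ φ (r • er θ) (r • et θ)) θ := by
        intro θ
        have ha : HasDerivAt er (et θ) θ := by
          have e1 : er = fun x : ℝ => Real.cos x • (EuclideanSpace.single 0 1 : R 2) +
              Real.sin x • (EuclideanSpace.single 1 1 : R 2) := by
            funext x; exact er_eq x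
          rw [e1, et_eq]
          have h5 := ((Real.hasDerivAt_cos θ).smul_const (EuclideanSpace.single 0 1 : R 2)).add
            ((Real.hasDerivAt_sin θ).smul_const (EuclideanSpace.single 1 1 : R 2))
          refine h5.congr_deriv ?_
          rw [neg_smul]
          abel
        have hb : HasDerivAt (fun θ : ℝ => r • er θ) (r • et θ) θ := ha.const_smul r
        exact ((hd _).hasFDerivAt).comp_hasDerivAt θ hb
      have h6 : ∫ θ in (-Real.pi)..Real.pi, fderiv ℝ φ (r • er θ) (r • et θ) = 0 := by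
        have hcont : Continuous fun θ : ℝ => fderiv ℝ φ (r • er θ) (r • et θ) :=
          (hcd.comp (continuous_er.const_smul r)).clm_apply (continuous_et.const_smul r)
        rw [intervalIntegral.integral_eq_sub_of_hasDerivAt (fun θ _ => hder θ)
          (hcont.intervalIntegrable _ _)]
        have : er Real.pi = er (-Real.pi) := by
          ext i
          fin_cases i <;> simp [er]
        rw [this, sub_self]
      rw [intervalIntegral.integral_of_le (by linarith [Real.pi_pos]),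
        integral_Ioc_eq_integral_Ioo] at h6
      have h7 : ∀ θ : ℝ, fderiv ℝ φ (r • er θ) (r • et θ) = r * fderiv ℝ φ (r • er θ) (et θ) := by
        intro θ
        rw [map_smul, smul_eq_mul]
      simp only [h7] at h6
      rw [integral_const_mul] at h6
      exact (mul_eq_zero.1 h6).resolve_left hr0.ne'
    have h8 : ∫ r in Ioi (0 : ℝ), ∫ θ in Ioo (-Real.pi) Real.pi,
        fderiv ℝ φ (r • er θ) (et θ) = ∫ _r in Ioi (0 : ℝ), (0 : ℝ) :=
      setIntegral_congr_fun measurableSet_Ioi h3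
    rw [h8, integral_zero]
  · rw [Measure.prod_restrict]
    exact hi

end

/-- The constant matrix `diag(1, -1) / √2`. -/
noncomputable def G₀ (_ : R 2) : Matrix (Fin 2) (Fin 2) ℝ :=
  (Real.sqrt 2)⁻¹ • !![1, 0; 0, -1]

/-- `E_d (1/z) = π diag(1, -1) δ₀`. -/
theorem isBDdev_cauchy : IsBDdev (ball (0 : R 2) 1) cauchy
    (ENNReal.ofReal (Real.pi * Real.sqrt 2) • Measure.dirac 0) G₀ := by
  have hs : Real.sqrt 2 ≠ 0 := by positivity
  have hs2 : Real.sqrt 2 ^ 2 = 2 := Real.sq_sqrt (by norm_num)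
  refine ⟨integrable_cauchy 1, ?_, ?_, ?_, ?_, ?_, ?_, ?_⟩
  · exact ⟨by simp⟩
  · simp
  · intro i j
    exact measurable_const
  · refine Eventually.of_forall fun x => ?_
    ext i j
    fin_cases i <;> fin_cases j <;> simp [G₀]
  · refine Eventually.of_forall fun x => ?_
    simp [G₀, Matrix.trace, Fin.sum_univ_two]
  · refine Eventually.of_forall fun x => ?_
    simp [G₀, Fin.sum_univ_two]
    norm_num
  · intro φ hφ hφc hsupp i j
    have hout : ∀ x : R 2, x ∉ ball (0 : R 2) 1 → fderiv ℝ φ x = 0 := by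
      intro x hx
      by_contra hne
      exact hx (hsupp (tsupport_fderiv_subset ℝ (subset_tsupport _ hne)))
    have hR := radial hφ hφc
    have hA := angular hφ hφc
    have hdec : ∀ (x v : R 2), fderiv ℝ φ x v = v 0 * fderiv ℝ φ x (EuclideanSpace.single 0 1) +
        v 1 * fderiv ℝ φ x (EuclideanSpace.single 1 1) := by
      intro x v
      have hv : v = v 0 • (EuclideanSpace.single 0 1 : R 2) +
          v 1 • (EuclideanSpace.single 1 1 : R 2) := by
        ext i
        fin_cases i <;> simp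
      conv_lhs => rw [hv]
      rw [map_add, map_smul, map_smul, smul_eq_mul, smul_eq_mul]
    have hext : ∀ F : R 2 → ℝ, (∀ x, x ∉ ball (0 : R 2) 1 → F x = 0) →
        ∫ x in ball (0 : R 2) 1, F x = ∫ x, F x := by
      intro F hF
      exact setIntegral_eq_integral_of_forall_compl_eq_zero hF
    rw [hext _ (by
      intro x hx
      rw [hout x hx]
      simp)]
    have hrhs : ∫ x, G₀ x i j * φ x ∂(ENNReal.ofReal (Real.pi * Real.sqrt 2) •
        Measure.dirac (0 : R 2)) = Real.pi * Real.sqrt 2 * (G₀ 0 i j * φ 0) := by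
      rw [integral_smul_measure, integral_dirac, ENNReal.toReal_ofReal (by positivity),
        smul_eq_mul]
    rw [hrhs]
    have hc0 : ∀ x : R 2, cauchy x 0 = (‖x‖ ^ 2)⁻¹ * x 0 := by intro x; simp [cauchy]
    have hc1 : ∀ x : R 2, cauchy x 1 = -((‖x‖ ^ 2)⁻¹ * x 1) := by intro x; simp [cauchy]
    fin_cases i <;> fin_cases j
    · have : ∀ x : R 2, (cauchy x 0 * fderiv ℝ φ x (EuclideanSpace.single 0 1) +
          cauchy x 0 * fderiv ℝ φ x (EuclideanSpace.single 0 1)) / 2 -
          (∑ k, cauchy x k * fderiv ℝ φ x (EuclideanSpace.single k 1)) / ((2 : ℕ) : ℝ) =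
          (1 / 2) * ((‖x‖ ^ 2)⁻¹ * fderiv ℝ φ x x) := by
        intro x
        rw [Fin.sum_univ_two, hdec x x, hc0, hc1]
        push_cast
        ring
      simp only [Fin.zero_eta, if_true, this]
      rw [integral_const_mul, hR]
      simp [G₀]
      field_simp
    · have : ∀ x : R 2, (cauchy x 0 * fderiv ℝ φ x (EuclideanSpace.single 1 1) +
          cauchy x 1 * fderiv ℝ φ x (EuclideanSpace.single 0 1)) / 2 - 0 =
          (1 / 2) * ((‖x‖ ^ 2)⁻¹ * fderiv ℝ φ x (!₂[- x 1, x 0])) := by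
        intro x
        rw [hdec x (!₂[- x 1, x 0]), hc0, hc1]
        simp
        ring
      simp only [Fin.zero_eta, Fin.mk_one, zero_ne_one, if_false, this]
      rw [integral_const_mul, hA]
      simp [G₀]
    · have : ∀ x : R 2, (cauchy x 1 * fderiv ℝ φ x (EuclideanSpace.single 0 1) +
          cauchy x 0 * fderiv ℝ φ x (EuclideanSpace.single 1 1)) / 2 - 0 =
          (1 / 2) * ((‖x‖ ^ 2)⁻¹ * fderiv ℝ φ x (!₂[- x 1, x 0])) := by
        intro x
        rw [hdec x (!₂[- x 1, x 0]), hc0, hc1]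
        simp
        ring
      simp only [Fin.zero_eta, Fin.mk_one, one_ne_zero, if_false, this]
      rw [integral_const_mul, hA]
      simp [G₀]
    · have : ∀ x : R 2, (cauchy x 1 * fderiv ℝ φ x (EuclideanSpace.single 1 1) +
          cauchy x 1 * fderiv ℝ φ x (EuclideanSpace.single 1 1)) / 2 -
          (∑ k, cauchy x k * fderiv ℝ φ x (EuclideanSpace.single k 1)) / ((2 : ℕ) : ℝ) =
          -(1 / 2) * ((‖x‖ ^ 2)⁻¹ * fderiv ℝ φ x x) := by
        intro x
        rw [Fin.sum_univ_two, hdec x x, hc0, hc1]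
        push_cast
        ring
      simp only [Fin.mk_one, if_true, this]
      rw [integral_const_mul, hR]
      simp [G₀]
      field_simp

/-- It is not true that `|E_d u| (S_u \ J_u) = 0` for all `n ≥ 2`, all open `Ω ⊆ ℝ^n` and all
`u ∈ BD_dev(Ω)`: for `n = 2` the field `u = 1/z` on the unit disc has `E_d u = π diag(1,-1) δ₀`,
and the origin is an approximate discontinuity point of `u` which is not a jump point. -/
theorem result :
    ¬ (∀ n : ℕ, 2 ≤ n → ∀ (Ω : Set (R n)) (u : R n → R n) (μ : Measure (R n))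
      (G : R n → Matrix (Fin n) (Fin n) ℝ), IsOpen Ω → IsBDdev Ω u μ G →
        μ (discSet Ω u \ jumpSet Ω u) = 0) := by
  intro h
  have h1 := h 2 le_rfl (ball 0 1) cauchy _ G₀ isOpen_ball isBDdev_cauchy
  have h2 : (ENNReal.ofReal (Real.pi * Real.sqrt 2) • Measure.dirac (0 : R 2)) {0} ≤
      (ENNReal.ofReal (Real.pi * Real.sqrt 2) • Measure.dirac (0 : R 2))
        (discSet (ball 0 1) cauchy \ jumpSet (ball 0 1) cauchy) := by
    apply measure_mono
    rw [singleton_subset_iff]
    exact ⟨zero_mem_disc, zero_notMem_jump⟩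
  rw [h1] at h2
  have h3 : (ENNReal.ofReal (Real.pi * Real.sqrt 2) • Measure.dirac (0 : R 2)) {0} =
      ENNReal.ofReal (Real.pi * Real.sqrt 2) := by
    simp
  rw [h3] at h2
  have h4 : (0 : ℝ) < Real.pi * Real.sqrt 2 := by positivity
  exact absurd h2 (not_le.2 (ENNReal.ofReal_pos.2 h4))

end Pool.Agent.Results.MP_d02974_an.PlanarCase
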